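import Pool.Agent.W5h44.Szlenk.Space

/-!
# The class of spaces with summable Szlenk index is not of finite Borel class
-/

open Filter Topology Metric Set
open Pool.Agent.R271.Coding
open Pool.Agent.W5h44.Szlenk

namespace Pool.Agent.Results.MP_a496e9_an.NotFiniteBorelClass

/-- The space `𝒫` of all pseudonorms on `V = ℕ →₀ ℚ` with the topology of pointwise
convergence. -/
def PN : Type := {μ : V → ℝ // IsPN μ}

instance : TopologicalSpace PN := instTopologicalSpaceSubtype

/-- The space `𝒫_∞` of the pseudonorms which code an infinite-dimensional space. -/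
def Pinf : Type := {μ : PN // ∃ (X : Type) (_ : NormedAddCommGroup X) (_ : NormedSpace ℝ X)
  (ι : V →+ X), Codes X μ.1 ι ∧ ¬ FiniteDimensional ℝ X}

instance : TopologicalSpace Pinf := instTopologicalSpaceSubtype

/-- The class in `𝒫_∞` of a property of Banach spaces. -/
def classOf (Q : ∀ (X : Type) [NormedAddCommGroup X] [NormedSpace ℝ X], Prop) : Set Pinf :=
  {μ | ∃ (X : Type) (_ : NormedAddCommGroup X) (_ : NormedSpace ℝ X) (ι : V →+ X),
    Codes X μ.1.1 ι ∧ Q X}

/-! ### Uniqueness of the completion -/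

section unique

variable {X Y : Type} [NormedAddCommGroup X] [NormedSpace ℝ X] [NormedAddCommGroup Y]
  [NormedSpace ℝ Y] {μ : V → ℝ} {ι : V →+ X} {κ : V →+ Y}

theorem exists_equiv (hX : Codes X μ ι) (hY : Codes Y μ κ) :
    ∃ e : X ≃ₗᵢ[ℝ] Y, ∀ v, e (ι v) = κ v := by
  have := hX.complete
  have := hY.complete
  have hdist : ∀ u v, dist (κ u) (κ v) = dist (ι u) (ι v) := by
    intro u v
    rw [dist_eq_norm, dist_eq_norm, ← map_sub, ← map_sub, hX.norm, hY.norm]
  let _ : UniformSpace V := UniformSpace.comap ι inferInstance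
  have hι : IsUniformInducing ι := ⟨rfl⟩
  have hκ : UniformContinuous κ := by
    refine (Metric.uniformity_basis_dist.tendsto_right_iff).2 fun ε hε => ?_
    have h1 : {p : V × V | dist (ι p.1) (ι p.2) < ε} ∈ uniformity V := by
      rw [← hι.comap_uniformity]
      exact ⟨_, Metric.dist_mem_uniformity hε, fun p hp => hp⟩
    refine Filter.mem_of_superset h1 fun p hp => ?_
    show dist (κ p.1) (κ p.2) < ε
    rw [hdist]
    exact hp
  let g : X → Y := (hι.isDenseInducing hX.dense).extend κ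
  have hg1 : ∀ v, g (ι v) = κ v := fun v => uniformly_extend_of_ind hι hX.dense hκ v
  have hg2 : Continuous g := (uniformContinuous_uniformly_extend hι hX.dense hκ).continuous
  have hd : DenseRange (Prod.map ι ι : V × V → X × X) := hX.dense.prodMap hX.dense
  have hadd : ∀ x y, g (x + y) = g x + g y := by
    have hcl : IsClosed {p : X × X | g (p.1 + p.2) = g p.1 + g p.2} :=
      isClosed_eq (hg2.comp (continuous_fst.add continuous_snd))
        ((hg2.comp continuous_fst).add (hg2.comp continuous_snd))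
    have h2 : ∀ p : X × X, g (p.1 + p.2) = g p.1 + g p.2 := by
      intro p
      refine hd.induction_on (p := fun p : X × X => g (p.1 + p.2) = g p.1 + g p.2) p hcl ?_
      rintro ⟨u, v⟩
      show g (ι u + ι v) = g (ι u) + g (ι v)
      rw [← map_add, hg1, hg1, hg1, map_add]
    exact fun x y => h2 (x, y)
  have hnorm : ∀ x, ‖g x‖ = ‖x‖ := by
    intro x
    refine hX.dense.induction_on (p := fun x : X => ‖g x‖ = ‖x‖) x
      (isClosed_eq hg2.norm continuous_norm) ?_
    intro v
    rw [hg1, hX.norm, hY.norm]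
  let G : X →+ Y := AddMonoidHom.mk' g hadd
  have hG : Continuous G := hg2
  let f : X →ₗᵢ[ℝ] Y :=
    { toFun := g
      map_add' := hadd
      map_smul' := fun c x => map_real_smul G hG c x
      norm_map' := hnorm }
  have hsurj : Function.Surjective f := by
    have h1 : IsClosed (range f) := f.isometry.isClosedEmbedding.isClosed_range
    have h2 : Dense (range f) := hY.dense.mono (by
      rintro _ ⟨v, rfl⟩
      exact ⟨ι v, hg1 v⟩)
    intro y
    have h3 : range f = univ := by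
      rw [← h1.closure_eq]
      exact h2.closure_eq
    have h4 : y ∈ range f := by rw [h3]; trivial
    exact h4
  exact ⟨LinearIsometryEquiv.ofSurjective f hsurj, fun v => hg1 v⟩

lemma foldr_map (e : X ≃ₗᵢ[ℝ] Y) (l : List ℝ) (f : StrongDual ℝ Y)
    (hf : f ∈ l.foldr szDer (Metric.closedBall (0 : StrongDual ℝ Y) 1)) :
    f.comp (e : X →L[ℝ] Y) ∈ l.foldr szDer (Metric.closedBall (0 : StrongDual ℝ X) 1) := by
  have hnorm : ∀ f : StrongDual ℝ Y, ‖f.comp (e : X →L[ℝ] Y)‖ = ‖f‖ := fun f =>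
    ContinuousLinearMap.opNorm_comp_linearIsometryEquiv f e
  induction l generalizing f with
  | nil =>
    have h1 : ‖f‖ ≤ 1 := mem_closedBall_zero_iff.1 hf
    show _ ∈ Metric.closedBall (0 : StrongDual ℝ X) 1
    rw [mem_closedBall_zero_iff, hnorm]
    exact h1
  | cons ε l ih =>
    obtain ⟨hf1, hf2⟩ := hf
    refine ⟨ih f hf1, fun U hU hfU => ?_⟩
    let U' : Set (WeakDual ℝ Y) := {g | StrongDual.toWeakDual
      ((WeakDual.toStrongDual g).comp (e : X →L[ℝ] Y)) ∈ U}
    have hcont : Continuous (fun g : WeakDual ℝ Y => StrongDual.toWeakDual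
      ((WeakDual.toStrongDual g).comp (e : X →L[ℝ] Y))) :=
      WeakDual.continuous_of_continuous_eval fun x => WeakDual.eval_continuous (e x)
    have hU' : IsOpen U' := hU.preimage hcont
    have h1 := hf2 U' hU' hfU
    refine h1.trans (Metric.diam_le_of_forall_dist_le Metric.diam_nonneg ?_)
    rintro g ⟨hg1, hg2⟩ h ⟨hh1, hh2⟩
    have h2 : dist g h = dist (g.comp (e : X →L[ℝ] Y)) (h.comp (e : X →L[ℝ] Y)) := by
      rw [dist_eq_norm, dist_eq_norm, ← hnorm (g - h), ContinuousLinearMap.sub_comp]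
    rw [h2]
    refine Metric.dist_le_diam_of_mem ?_ ⟨ih g hg1, hg2⟩ ⟨ih h hh1, hh2⟩
    exact Metric.isBounded_closedBall.subset (inter_subset_left.trans (foldr_subset _ _))

lemma summable_of_equiv (e : X ≃ₗᵢ[ℝ] Y) (h : SummableSzlenk X) : SummableSzlenk Y := by
  obtain ⟨M, hM⟩ := h
  refine ⟨M, fun l hl hne => hM l hl ?_⟩
  obtain ⟨f, hf⟩ := hne
  exact ⟨_, foldr_map e l f hf⟩

end unique

/-! ### The reduction -/

/-- The pseudonorm of a labelling. -/
noncomputable def pn (M : ℕ) (b : List ℕ → Bool) : Pinf :=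
  ⟨⟨nrm (cmp (Tree M b)), isPN_nrm _⟩, by
    obtain ⟨X, i1, i2, ι, hc⟩ := exists_codes (isPN_nrm (cmp (Tree M b)))
    exact ⟨X, i1, i2, ι, hc, not_finiteDimensional (fun i => Or.inl rfl) hc⟩⟩

lemma pn_mem_iff (M : ℕ) (b : List ℕ → Bool) :
    pn M b ∈ classOf @SummableSzlenk ↔ ¬ TT M b := by
  constructor
  · rintro ⟨X, i1, i2, ι, hc, hX⟩ hT
    have hc' : Codes X (nrm (cmp (Tree M b))) ι := hc
    exact not_summable_of_bad (r := anc) (T := Tree M b) anc_irrefl anc_trans (fun i => Or.inl rfl)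
      (fun i j hi hj hij => ⟨Or.inr ⟨hi, hj, Or.inl hij⟩, Or.inr ⟨hj, hi, Or.inr hij⟩⟩)
      (tree_bad hT) hc' hX
  · intro hT
    obtain ⟨X, i1, i2, ι, hc⟩ := exists_codes (isPN_nrm (cmp (Tree M b)))
    exact ⟨X, i1, i2, ι, hc, summable_of_rank (tree_good hT) hc⟩

lemma continuous_pn {Z : Type} [TopologicalSpace Z] (M : ℕ) {g : Z → List ℕ → Bool}
    (hg : Continuous g) : Continuous (fun c => pn M (g c)) := by
  refine Continuous.subtype_mk (Continuous.subtype_mk (continuous_pi fun v => ?_) _) _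
  rw [continuous_iff_continuousAt]
  intro c₀
  have h1 : ∀ i : ℕ, ∀ᶠ c in 𝓝 c₀, (i ∈ Tree M (g c) ↔ i ∈ Tree M (g c₀)) := by
    intro i
    have h2 := isClopen_valid hg M (hist i)
    by_cases hi : i ∈ Tree M (g c₀)
    · filter_upwards [h2.isOpen.mem_nhds hi] with c hc
      exact ⟨fun _ => hi, fun _ => hc⟩
    · filter_upwards [h2.compl.isOpen.mem_nhds hi] with c hc
      exact ⟨fun h => absurd h hc, fun h => absurd h hi⟩
  have h2 : ∀ᶠ c in 𝓝 c₀, ∀ i ∈ v.support, (i ∈ Tree M (g c) ↔ i ∈ Tree M (g c₀)) :=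
    (Finset.eventually_all _).2 fun i _ => h1 i
  have h3 : ∀ᶠ c in 𝓝 c₀, nrm (cmp (Tree M (g c))) v = nrm (cmp (Tree M (g c₀))) v := by
    filter_upwards [h2] with c hc
    have h4 : {F : Finset ℕ | Clq (cmp (Tree M (g c))) F ∧ F ⊆ v.support} =
        {F : Finset ℕ | Clq (cmp (Tree M (g c₀))) F ∧ F ⊆ v.support} := by
      ext F
      refine and_congr_left fun hF => ?_
      refine forall₂_congr fun i hi => forall₂_congr fun j hj => ?_
      show (i = j ∨ (i ∈ Tree M (g c) ∧ j ∈ Tree M (g c) ∧ (anc i j ∨ anc j i))) ↔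
        (i = j ∨ (i ∈ Tree M (g c₀) ∧ j ∈ Tree M (g c₀) ∧ (anc i j ∨ anc j i)))
      rw [hc i (hF hi), hc j (hF hj)]
    rw [nrm, nrm, h4]
  exact continuousAt_const.congr (h3.mono fun c hc => hc.symm)

/-- The class of the pseudonorms which code a space with summable Szlenk index is not of finite
Borel class in `𝒫_∞`. Moreover each pseudonorm codes a Banach space, which is unique up to an
isometric isomorphism, and the membership in the class does not depend on its choice. -/
theorem result :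
    (∀ n : ℕ, ¬ IsSigma n (classOf @SummableSzlenk)) ∧
    (∀ μ : PN, ∃ (X : Type) (_ : NormedAddCommGroup X) (_ : NormedSpace ℝ X) (ι : V →+ X),
      Codes X μ.1 ι) ∧
    (∀ (μ : PN) (X Y : Type) [NormedAddCommGroup X] [NormedSpace ℝ X] [NormedAddCommGroup Y]
      [NormedSpace ℝ Y] (ι : V →+ X) (κ : V →+ Y), Codes X μ.1 ι → Codes Y μ.1 κ →
      ∃ e : X ≃ₗᵢ[ℝ] Y, ∀ v, e (ι v) = κ v) ∧
    ∀ (μ : Pinf) (X : Type) [NormedAddCommGroup X] [NormedSpace ℝ X] (ι : V →+ X),
      Codes X μ.1.1 ι → (μ ∈ classOf @SummableSzlenk ↔ SummableSzlenk X) := by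
  refine ⟨fun n hn => ?_, fun μ => exists_codes μ.2, fun μ X Y _ _ _ _ ι κ hX hY =>
    exists_equiv hX hY, fun μ X _ _ ι hc => ⟨?_, fun h => ⟨X, _, _, ι, hc, h⟩⟩⟩
  · obtain ⟨M, A, hA, hnot⟩ := exists_RR_not_sigma n
    obtain ⟨g, hg, hgA⟩ := hA.exists_map
    apply hnot
    have h1 := hn.preimage (continuous_pn M hg)
    have h2 : (fun c => pn M (g c)) ⁻¹' (classOf @SummableSzlenk) = Aᶜ := by
      ext c
      rw [mem_preimage, pn_mem_iff, mem_compl_iff, hgA]
    rwa [h2] at h1
  · rintro ⟨Y, i1, i2, κ, hY, h⟩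
    obtain ⟨e, _⟩ := exists_equiv hY hc
    exact summable_of_equiv e h

end Pool.Agent.Results.MP_a496e9_an.NotFiniteBorelClass
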